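import Mathlib

set_option autoImplicit false

namespace Pool.Agent.Results.MP_c60ead_co.SignTwist

open Equiv Finset

/-- `Y ⊆ S_n` is `k`-transitive: for some positive `r`, any two `k`-tuples of distinct points
are matched by exactly `r` elements of `Y`. -/
def KTransitive (n k : ℕ) (Y : Finset (Perm (Fin n))) : Prop :=
  ∃ r : ℕ, 0 < r ∧ ∀ a b : Fin k → Fin n, Function.Injective a → Function.Injective b →
    (Y.filter (fun y => ∀ i, y (a i) = b i)).card = r

theorem card_fiber {n k : ℕ} (a0 a b : Fin k → Fin n) (h0 : Function.Injective a0)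
    (ha : Function.Injective a) (hb : Function.Injective b) :
    (univ.filter (fun y : Perm (Fin n) => ∀ i, y (a i) = b i)).card =
      (univ.filter (fun y : Perm (Fin n) => ∀ i, y (a0 i) = a0 i)).card := by
  obtain ⟨s, hs⟩ := Equiv.Perm.exists_extending_pair a0 a h0 ha
  obtain ⟨t, ht⟩ := Equiv.Perm.exists_extending_pair a0 b h0 hb
  refine Finset.card_bij' (fun y _ => t⁻¹ * y * s) (fun y _ => t * y * s⁻¹) ?_ ?_ ?_ ?_
  · intro y hy
    simp only [mem_filter, mem_univ, true_and] at hy ⊢
    intro i
    simp only [Perm.mul_apply, hs, hy, ← ht]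
    simp
  · intro y hy
    simp only [mem_filter, mem_univ, true_and] at hy ⊢
    intro i
    simp only [Perm.mul_apply, ← hs, ← ht]
    simp [hy]
  · intro y _
    group
  · intro y _
    group

theorem result (n : ℕ) (hn : 4 ≤ n) :
    ∃ Y : Finset (Perm (Fin n)), KTransitive n ((n - 2) / 2) Y ∧
      Y ≠ univ.filter (fun y => Perm.sign y = 1) ∧
      Y ≠ univ.filter (fun y => Perm.sign y = -1) ∧ Y ≠ univ := by
  classical
  let p0 : Fin n := ⟨0, by omega⟩
  let p1 : Fin n := ⟨1, by omega⟩
  let p2 : Fin n := ⟨2, by omega⟩
  let P : Perm (Fin n) → Prop := fun y => (Perm.sign y = 1 ↔ ¬ ((y p0).val < 2 ∧ (y p1).val < 2))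
  have hid : ¬ P 1 := by simp [P, p0, p1]
  refine ⟨univ.filter P, ?_, ?_, ?_, ?_⟩
  · set k := (n - 2) / 2 with hk
    have hkn : k ≤ n := by omega
    let a0 : Fin k → Fin n := Fin.castLE hkn
    have h0 : Function.Injective a0 := Fin.castLE_injective hkn
    set N := (univ.filter (fun y : Perm (Fin n) => ∀ i, y (a0 i) = a0 i)).card with hN
    have key : ∀ a b : Fin k → Fin n, Function.Injective a → Function.Injective b →
        2 * ((univ.filter P).filter (fun y => ∀ i, y (a i) = b i)).card = N := by
      intro a b ha hb
      rw [hN, ← card_fiber a0 a b h0 ha hb]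
      have hlt : (univ.image (fun i : Fin k => (a i).val / 2)).card < (range (n / 2)).card := by
        refine lt_of_le_of_lt card_image_le ?_
        simp only [card_univ, Fintype.card_fin, card_range]
        omega
      obtain ⟨j, hj, hj2⟩ := Finset.exists_mem_notMem_of_card_lt_card hlt
      simp only [mem_range] at hj
      simp only [mem_image, mem_univ, true_and, not_exists] at hj2
      let u : Fin n := ⟨2 * j, by omega⟩
      let v : Fin n := ⟨2 * j + 1, by omega⟩
      have huv : u ≠ v := by simp [u, v, Fin.ext_iff]
      have hfix : ∀ i, swap u v (a i) = a i := by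
        intro i
        apply swap_apply_of_ne_of_ne
        · intro h
          apply hj2 i
          rw [h]; simp [u]
        · intro h
          apply hj2 i
          rw [h]; simp only [v]; omega
      have hinv : ∀ y : Perm (Fin n),
          (((y * swap u v) p0).val < 2 ∧ ((y * swap u v) p1).val < 2) ↔
            ((y p0).val < 2 ∧ (y p1).val < 2) := by
        intro y
        by_cases hj0 : j = 0
        · have e1 : u = p0 := by simp [u, p0, hj0]
          have e2 : v = p1 := by simp [v, p1, hj0]
          simp only [Perm.mul_apply, e1, e2, swap_apply_left, swap_apply_right]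
          exact and_comm
        · have e1 : swap u v p0 = p0 := by
            apply swap_apply_of_ne_of_ne <;> simp only [u, v, p0, Ne, Fin.ext_iff] <;> omega
          have e2 : swap u v p1 = p1 := by
            apply swap_apply_of_ne_of_ne <;> simp only [u, v, p1, Ne, Fin.ext_iff] <;> omega
          simp only [Perm.mul_apply, e1, e2]
      have hP : ∀ y : Perm (Fin n), P (y * swap u v) ↔ ¬ P y := by
        intro y
        simp only [P]
        rw [hinv y, Perm.sign_mul, Perm.sign_swap huv]
        rcases Int.units_eq_one_or (Perm.sign y) with h | h <;> rw [h] <;> simp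
      have hsplit := Finset.card_filter_add_card_filter_not (s := univ.filter
        (fun y : Perm (Fin n) => ∀ i, y (a i) = b i)) P
      have hbij : ((univ.filter (fun y : Perm (Fin n) => ∀ i, y (a i) = b i)).filter P).card =
          ((univ.filter (fun y : Perm (Fin n) => ∀ i, y (a i) = b i)).filter
            (fun y => ¬ P y)).card := by
        refine Finset.card_bij' (fun y _ => y * swap u v) (fun y _ => y * swap u v) ?_ ?_ ?_ ?_
        · intro y hy
          simp only [mem_filter, mem_univ, true_and] at hy ⊢
          refine ⟨fun i => by simp only [Perm.mul_apply, hfix, hy.1], ?_⟩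
          rw [hP]; exact not_not.2 hy.2
        · intro y hy
          simp only [mem_filter, mem_univ, true_and] at hy ⊢
          refine ⟨fun i => by simp only [Perm.mul_apply, hfix, hy.1], ?_⟩
          rw [hP]; exact hy.2
        · intro y _
          simp [mul_assoc]
        · intro y _
          simp [mul_assoc]
      rw [Finset.filter_comm]
      omega
    have hNpos : 0 < N := by
      rw [hN]
      exact card_pos.2 ⟨1, by simp⟩
    refine ⟨N / 2, ?_, ?_⟩
    · have := key a0 a0 h0 h0
      omega
    · intro a b ha hb
      have := key a b ha hb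
      omega
  · intro h
    have : (1 : Perm (Fin n)) ∈ univ.filter P := by rw [h]; simp
    exact hid (mem_filter.1 this).2
  · intro h
    have h01 : p0 ≠ p1 := by simp [p0, p1, Fin.ext_iff]
    have h02 : p0 ≠ p2 := by simp [p0, p2, Fin.ext_iff]
    have h12 : p1 ≠ p2 := by simp [p1, p2, Fin.ext_iff]
    have hs : Perm.sign (swap p1 p2 * swap p0 p1) = 1 := by
      rw [Perm.sign_mul, Perm.sign_swap h01, Perm.sign_swap h12]; simp
    have : swap p1 p2 * swap p0 p1 ∈ univ.filter P := by
      simp only [mem_filter, mem_univ, true_and, P, hs, true_iff, Perm.mul_apply,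
        swap_apply_left]
      simp [p2]
    rw [h, mem_filter, hs] at this
    exact absurd this.2 (by decide)
  · intro h
    have : (1 : Perm (Fin n)) ∈ univ.filter P := by rw [h]; simp
    exact hid (mem_filter.1 this).2

end Pool.Agent.Results.MP_c60ead_co.SignTwist
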